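import Pool.Agent.Helper11.LE.Goals1

/-!
# Project LE, packet LE-SUN: `S`-units modulo `p`-th powers
-/

namespace Pool.Agent.Helper88.LE

open NumberField Module IsDedekindDomain Pool.Agent.Helper51.RP Pool.Agent.Helper11.LE

/-- Counting a finite set through a map with small image and small fibres. -/
theorem card_fib {α β : Type*} [DecidableEq β] (F : Finset α) (f : α → β) (m n : ℕ)
    (him : (F.image f).card ≤ n) (hf : ∀ c ∈ F.image f, (F.filter (fun x ↦ f x = c)).card ≤ m) :
    F.card ≤ m * n :=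
  (Finset.card_le_mul_card_image F m hf).trans (Nat.mul_le_mul_left m him)

theorem image_card_le {α β : Type*} [DecidableEq β] [Fintype β] (F : Finset α) (f : α → β) :
    (F.image f).card ≤ Fintype.card β := Finset.card_le_univ _

/-- Integers congruent modulo `p`. -/
theorem zcong {p : ℕ} {a b : ℤ} (h : ((a : ℤ) : ZMod p) = ((b : ℤ) : ZMod p)) :
    ∃ t : ℤ, a - b = p * t := by
  have := (ZMod.intCast_eq_intCast_iff_dvd_sub b a p).mp h.symm
  exact this

section units

variable (p : ℕ) [hp : Fact p.Prime] (K : Type) [Field K] [NumberField K]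

/-- The units as elements of `Kˣ`. -/
noncomputable def uK : (𝓞 K)ˣ →* Kˣ := Units.map (algebraMap (𝓞 K) K : (𝓞 K) →* K)

/-- The exponents of a unit. -/
theorem unit_form (x : (𝓞 K)ˣ) : ∃ (z : Units.torsion K) (e : Fin (Units.rank K) → ℤ),
    x = z * ∏ i, (Units.fundSystem K i) ^ (e i) := by
  obtain ⟨ze, h, -⟩ := Units.exist_unique_eq_mul_prod K x
  exact ⟨ze.1, ze.2, h⟩

omit hp in
theorem prod_diff (e e' : Fin (Units.rank K) → ℤ) (h : ∀ i, ∃ t : ℤ, e i - e' i = p * t) :
    ∃ w : (𝓞 K)ˣ, (∏ i, (Units.fundSystem K i) ^ (e i)) /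
      (∏ i, (Units.fundSystem K i) ^ (e' i)) = w ^ p := by
  choose t ht using h
  refine ⟨∏ i, (Units.fundSystem K i) ^ (t i), ?_⟩
  rw [← Finset.prod_div_distrib, ← Finset.prod_pow]
  refine Finset.prod_congr rfl fun i _ ↦ ?_
  rw [div_eq_mul_inv, ← zpow_sub, ht i, mul_comm, zpow_mul, zpow_natCast]

/-- If `K` contains no primitive `p`-th root of unity, every root of unity is a `p`-th power. -/
theorem tors_pow (hn : ¬ ∃ ε : K, IsPrimitiveRoot ε p) (z : Units.torsion K) :
    ∃ w : Units.torsion K, z = w ^ p := by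
  have hcop : (Nat.card (Units.torsion K)).Coprime p := by
    rw [Nat.coprime_comm, hp.out.coprime_iff_not_dvd]
    intro hdvd
    obtain ⟨g, hg⟩ := exists_prime_orderOf_dvd_card' p hdvd
    apply hn
    refine ⟨((g : (𝓞 K)ˣ) : K), ?_⟩
    have h1 : orderOf (((g : (𝓞 K)ˣ) : K)) = p := by
      rw [← hg, ← Subgroup.orderOf_coe, ← orderOf_units]
      exact orderOf_injective (algebraMap (𝓞 K) K : (𝓞 K) →* K)
        (RingOfIntegers.coe_injective) _
    rw [← h1]
    exact IsPrimitiveRoot.orderOf _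
  obtain ⟨w, hw⟩ := (powCoprime hcop).surjective z
  exact ⟨w, hw.symm⟩

/-- The bound for the units. -/
theorem units_bound (F : Finset (𝓞 K)ˣ)
    (hF : ∀ x ∈ F, ∀ y ∈ F, x ≠ y → ¬ ∃ w : (𝓞 K)ˣ, x / y = w ^ p) :
    F.card ≤ p ^ urk p K := by
  classical
  choose z e hze using unit_form K
  by_cases hε : ∃ ε : K, IsPrimitiveRoot ε p
  · have hu : urk p K = Units.rank K + 1 := by
      unfold urk; rw [if_pos hε]
    obtain ⟨g, hg⟩ := IsCyclic.exists_generator (α := Units.torsion K)
    have hga : ∀ x : Units.torsion K, ∃ a : ℤ, g ^ a = x := fun x ↦ hg x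
    choose a ha using hga
    let f : (𝓞 K)ˣ → (Fin (Units.rank K) → ZMod p) × ZMod p :=
      fun x ↦ (fun i ↦ ((e x i : ℤ) : ZMod p), ((a (z x) : ℤ) : ZMod p))
    have hinj : Set.InjOn f F := by
      intro x hx y hy hxy
      by_contra hne
      refine hF x hx y hy hne ?_
      have h1 : ∀ i, ∃ t : ℤ, e x i - e y i = p * t := fun i ↦
        zcong (congrFun (congrArg Prod.fst hxy) i)
      obtain ⟨w, hw⟩ := prod_diff p K _ _ h1
      obtain ⟨t, ht⟩ := zcong (congrArg Prod.snd hxy : _)
      refine ⟨((g ^ t : Units.torsion K) : (𝓞 K)ˣ) * w, ?_⟩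
      rw [mul_pow, ← hw]
      conv_lhs => rw [hze x, hze y]
      rw [mul_div_mul_comm]
      congr 1
      have h2 : a (z x) - a (z y) = t * (p : ℤ) := by rw [mul_comm]; exact ht
      have h3 : z x / z y = (g ^ t) ^ p := by
        conv_lhs => rw [← ha (z x), ← ha (z y)]
        rw [div_eq_mul_inv, ← zpow_sub, h2, zpow_mul, zpow_natCast]
      rw [← Subgroup.coe_div, ← Subgroup.coe_pow, h3]
    have hc := Finset.card_le_card_of_injOn (t := Finset.univ) f (fun _ _ ↦ Finset.mem_univ _) hinj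
    rw [Finset.card_univ] at hc
    refine hc.trans ?_
    simp only [Fintype.card_prod, Fintype.card_fun, ZMod.card, Fintype.card_fin]
    rw [hu, pow_succ]
  · have hu : urk p K = Units.rank K := by
      unfold urk; rw [if_neg hε, add_zero]
    let f : (𝓞 K)ˣ → (Fin (Units.rank K) → ZMod p) := fun x i ↦ ((e x i : ℤ) : ZMod p)
    have hinj : Set.InjOn f F := by
      intro x hx y hy hxy
      by_contra hne
      refine hF x hx y hy hne ?_
      have h1 : ∀ i, ∃ t : ℤ, e x i - e y i = p * t := fun i ↦ zcong (congrFun hxy i)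
      obtain ⟨w, hw⟩ := prod_diff p K _ _ h1
      obtain ⟨v, hv⟩ := tors_pow p K hε (z x / z y)
      refine ⟨(v : (𝓞 K)ˣ) * w, ?_⟩
      rw [mul_pow, ← hw]
      conv_lhs => rw [hze x, hze y]
      rw [mul_div_mul_comm]
      congr 1
      rw [← Subgroup.coe_div, ← Subgroup.coe_pow, hv]
    have hc := Finset.card_le_card_of_injOn (t := Finset.univ) f (fun _ _ ↦ Finset.mem_univ _) hinj
    rw [Finset.card_univ] at hc
    refine hc.trans ?_
    simp only [Fintype.card_fun, ZMod.card, Fintype.card_fin]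
    rw [hu]

end units

section sunits

variable (p : ℕ) [hp : Fact p.Prime] (K : Type) [Field K] [NumberField K]

/-- The valuation at `v` as a homomorphism `Kˣ → ℤ`. -/
noncomputable def vh (v : HeightOneSpectrum (𝓞 K)) : Kˣ →* Multiplicative ℤ :=
  (WithZero.unitsWithZeroEquiv (α := Multiplicative ℤ)).toMonoidHom.comp
    (Units.map (v.valuation K).toMonoidWithZeroHom.toMonoidHom)

theorem vh_one {v : HeightOneSpectrum (𝓞 K)} {x : Kˣ} (h : vh K v x = 1) :
    v.valuation K (x : K) = 1 := by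
  have h1 : Units.map (v.valuation K).toMonoidWithZeroHom.toMonoidHom x = 1 := by
    apply (WithZero.unitsWithZeroEquiv (α := Multiplicative ℤ)).injective
    rw [map_one]
    exact h
  have h2 := congrArg Units.val h1
  simpa using h2

/-- Elements with trivial valuations are units. -/
theorem unit_of_val (x : Kˣ) (h : ∀ v : HeightOneSpectrum (𝓞 K), v.valuation K (x : K) = 1) :
    ∃ u : (𝓞 K)ˣ, uK K u = x := by
  obtain ⟨a, ha⟩ := HeightOneSpectrum.mem_integers_of_valuation_le_one (R := 𝓞 K) K (x : K)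
    (fun v ↦ (h v).le)
  obtain ⟨b, hb⟩ := HeightOneSpectrum.mem_integers_of_valuation_le_one (R := 𝓞 K) K ((x⁻¹ : Kˣ) : K)
    (fun v ↦ by
      have h1 : v.valuation K ((x⁻¹ : Kˣ) : K) = 1 := by
        rw [Units.val_inv_eq_inv_val, map_inv₀, h v, inv_one]
      exact h1.le)
  have hab : a * b = 1 := by
    apply RingOfIntegers.coe_injective
    rw [map_mul, map_one, ha, hb]
    exact x.mul_inv
  have hba : b * a = 1 := by rw [mul_comm]; exact hab
  refine ⟨⟨a, b, hab, hba⟩, ?_⟩
  ext
  exact ha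

/-- The valuations at the primes of `S`. -/
noncomputable def phi (S : Set (HeightOneSpectrum (𝓞 K))) : Additive Kˣ →+ (S → ℤ) where
  toFun x := fun v ↦ Multiplicative.toAdd (vh K v.1 (Additive.toMul x))
  map_zero' := by ext v; simp
  map_add' x y := by ext v; simp

theorem phi_apply (S : Set (HeightOneSpectrum (𝓞 K))) (x : Kˣ) (v : S) :
    phi K S (Additive.ofMul x) v = Multiplicative.toAdd (vh K v.1 x) := rfl

/-- The group of the valuation vectors of the `S`-units. -/
noncomputable def img (S : Set (HeightOneSpectrum (𝓞 K))) : Submodule ℤ (S → ℤ) :=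
  AddSubgroup.toIntSubmodule ((Subgroup.toAddSubgroup (S.unit K)).map (phi K S))

theorem mem_img (S : Set (HeightOneSpectrum (𝓞 K))) (w : S → ℤ) :
    w ∈ img K S ↔ ∃ x : Kˣ, x ∈ S.unit K ∧ phi K S (Additive.ofMul x) = w := by
  constructor
  · rintro ⟨x, hx, rfl⟩
    exact ⟨Additive.toMul x, hx, rfl⟩
  · rintro ⟨x, hx, rfl⟩
    exact ⟨Additive.ofMul x, hx, rfl⟩

end sunits

open Classical in
/-- The packet LE-SUN. -/
theorem l_sun : Pool.Agent.Helper11.LE.L_SUN := by
  intro p hp K _ _ S hS F hF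
  have : Fintype S := hS.fintype
  set I := img K S with hI
  set n := finrank ℤ I with hn
  have hnS : n ≤ S.ncard := by
    have h1 : n ≤ finrank ℤ (S → ℤ) := Submodule.finrank_le I
    rw [finrank_pi] at h1
    rw [Set.ncard_eq_toFinset_card', Set.toFinset_card]
    exact h1
  let b : Basis (Fin n) ℤ I := finBasis ℤ I
  let g : Kˣ → I := fun x ↦ if h : x ∈ S.unit K then
    ⟨phi K S (Additive.ofMul x), (mem_img K S _).2 ⟨x, h, rfl⟩⟩ else 0
  have hg : ∀ x ∈ S.unit K, ((g x : I) : S → ℤ) = phi K S (Additive.ofMul x) := by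
    intro x hx
    simp only [g, dif_pos hx]
  let f : Kˣ → (Fin n → ZMod p) := fun x i ↦ ((b.repr (g x) i : ℤ) : ZMod p)
  have key : ∀ x ∈ S.unit K, ∀ y ∈ S.unit K, f x = f y →
      ∃ (z : Kˣ) (u : (𝓞 K)ˣ), x / y = uK K u * z ^ p := by
    intro x hx y hy hxy
    have h1 : ∀ i, ∃ t : ℤ, b.repr (g x) i - b.repr (g y) i = p * t := fun i ↦
      zcong (congrFun hxy i)
    choose t ht using h1
    let w : I := ∑ i, t i • b i
    have hw : g x - g y = (p : ℤ) • w := by
      apply b.repr.injective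
      ext i
      rw [map_sub, Finsupp.sub_apply, ht i, map_smul, Finsupp.smul_apply, smul_eq_mul]
      congr 1
      rw [map_sum, Finsupp.finsetSum_apply]
      simp [Finsupp.single_apply]
    obtain ⟨z, hz, hzw⟩ := (mem_img K S _).1 w.2
    have hd : phi K S (Additive.ofMul (x / y / z ^ p)) = 0 := by
      have e1 : phi K S (Additive.ofMul (x / y / z ^ p)) =
          phi K S (Additive.ofMul x) - phi K S (Additive.ofMul y)
            - p • phi K S (Additive.ofMul z) := by
        rw [ofMul_div, ofMul_div, ofMul_pow, map_sub, map_sub, map_nsmul]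
      rw [e1, hzw, ← hg x hx, ← hg y hy]
      have e2 : ((g x : I) : S → ℤ) - ((g y : I) : S → ℤ) = (p : ℤ) • (w : S → ℤ) :=
        congrArg (fun q : I ↦ (q : S → ℤ)) hw
      rw [e2, natCast_zsmul, sub_self]
    have hu : ∀ v : HeightOneSpectrum (𝓞 K), v.valuation K ((x / y / z ^ p : Kˣ) : K) = 1 := by
      intro v
      by_cases hv : v ∈ S
      · apply vh_one
        have := congrFun hd ⟨v, hv⟩
        rw [phi_apply] at this
        exact Multiplicative.toAdd.injective this
      · have hm : x / y / z ^ p ∈ S.unit K :=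
          (S.unit K).div_mem ((S.unit K).div_mem hx hy) ((S.unit K).pow_mem hz p)
        exact hm v hv
    obtain ⟨u, hu'⟩ := unit_of_val K _ hu
    exact ⟨z, u, by rw [hu', div_mul_cancel]⟩
  have him : (F.image f).card ≤ p ^ S.ncard := by
    refine (image_card_le F f).trans ?_
    rw [Fintype.card_fun, ZMod.card, Fintype.card_fin]
    exact Nat.pow_le_pow_right hp.out.pos hnS
  have hfib : ∀ c ∈ F.image f, (F.filter (fun x ↦ f x = c)).card ≤ p ^ urk p K := by
    intro c hc
    obtain ⟨x0, hx0, rfl⟩ := Finset.mem_image.1 hc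
    have hx0S : x0 ∈ S.unit K := hF.1 x0 hx0
    have hk : ∀ x ∈ F.filter (fun x ↦ f x = f x0), ∃ (z : Kˣ) (u : (𝓞 K)ˣ),
        x / x0 = uK K u * z ^ p := by
      intro x hx
      obtain ⟨hxF, hfx⟩ := Finset.mem_filter.1 hx
      exact key x (hF.1 x hxF) x0 hx0S hfx
    choose! z u hzu using hk
    have hinc : ∀ x ∈ F.filter (fun x ↦ f x = f x0), ∀ y ∈ F.filter (fun x ↦ f x = f x0),
        x ≠ y → ¬ ∃ w : (𝓞 K)ˣ, u x / u y = w ^ p := by
      intro x hx y hy hne ⟨w, hw⟩
      refine hF.2 x (Finset.mem_filter.1 hx).1 y (Finset.mem_filter.1 hy).1 hne ?_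
      refine ⟨uK K w * (z x / z y), ?_⟩
      have e1 : x / y = (x / x0) / (y / x0) := by rw [div_div_div_cancel_right]
      rw [e1, hzu x hx, hzu y hy, mul_div_mul_comm, ← map_div, hw, map_pow, ← div_pow, ← mul_pow]
    have hinj : Set.InjOn u (F.filter (fun x ↦ f x = f x0) : Finset Kˣ) := by
      intro x hx y hy hxy
      by_contra hne
      exact hinc x hx y hy hne ⟨1, by rw [hxy, div_self', one_pow]⟩
    rw [← Finset.card_image_of_injOn hinj]
    refine units_bound p K _ ?_
    intro a ha a' ha' hne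
    obtain ⟨x, hx, rfl⟩ := Finset.mem_image.1 ha
    obtain ⟨y, hy, rfl⟩ := Finset.mem_image.1 ha'
    exact hinc x hx y hy (fun h ↦ hne (by rw [h]))
  have := card_fib F f (p ^ urk p K) (p ^ S.ncard) him hfib
  rw [mul_comm, ← pow_add] at this
  exact this

end Pool.Agent.Helper88.LE
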